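import Pool.Agent.Helper35.MS.StE

/-!
Project MS (MP_925021_gt), module BLR: the bubble lemma (real analysis).
-/

set_option autoImplicit false

namespace Pool.Agent.Helper51.MS

open Helper35.MS

/-- BLR. -/
theorem hBLR : StBLR := by
  intro m e B W a₀ ε₀ A₀ hB ha₀ hε mono nn h3 hA cap hBa hBε hε0
  have hpi : (3.14 : ℝ) < Real.pi := Real.pi_gt_d2
  have hpi0 : 0 < Real.pi := Real.pi_pos
  -- first step
  have s1 : ∀ a, a₀ ≤ a → e (a / 2) ≤ 8 * Real.pi → m a ≤ (B / (8 * Real.pi * a)) ^ 2 * m (a / 2) := by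
    intro a ha he
    have ha0 : 0 < a := lt_of_lt_of_le ha₀ ha
    have hm0 := (nn a ha0).1
    have hm2 := (nn (a / 2) (by positivity)).1
    have hc := cap a ha0
    rcases hm0.eq_or_lt with h0 | h0
    · rw [← h0]
      positivity
    have h1 : m a * e (a / 2) ≤ m a * (8 * Real.pi) := mul_le_mul_of_nonneg_left he hm0
    have h2 : 8 * Real.pi * m a ≤ B / a * Real.sqrt (m a * m (a / 2)) := by linarith
    have h4 : (8 * Real.pi * m a) ^ 2 ≤ (B / a) ^ 2 * (m a * m (a / 2)) := by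
      have := pow_le_pow_left₀ (by positivity) h2 2
      rwa [mul_pow (B / a), Real.sq_sqrt (by positivity)] at this
    have h5 : (8 * Real.pi) ^ 2 * m a ≤ (B / a) ^ 2 * m (a / 2) := by
      have h6 : m a * ((8 * Real.pi) ^ 2 * m a) ≤ m a * ((B / a) ^ 2 * m (a / 2)) := by nlinarith
      exact le_of_mul_le_mul_left h6 h0
    have h7 : (B / (8 * Real.pi * a)) ^ 2 * m (a / 2) = ((B / a) ^ 2 * m (a / 2)) / (8 * Real.pi) ^ 2 := by
      field_simp
    rw [h7, le_div_iff₀ (by positivity)]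
    linarith
  have kap : ∀ a, a₀ ≤ a → (B / (8 * Real.pi * a)) ^ 2 ≤ 1 / 16 := by
    intro a ha
    have ha0 : 0 < a := lt_of_lt_of_le ha₀ ha
    have h1 : B / (8 * Real.pi * a) ≤ 1 / 4 := by
      rw [div_le_iff₀ (by positivity)]
      nlinarith
    have h2 : 0 ≤ B / (8 * Real.pi * a) := by positivity
    nlinarith
  -- the energy is controlled by the measure
  have s2 : ∀ n : ℕ, ∀ a, a₀ ≤ a → e (a / 2) ≤ 8 * Real.pi → A₀ ≤ 2 ^ n * a → e a ≤ 16 / 3 * a ^ 2 * m a := by
    intro n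
    induction n with
    | zero =>
      intro a ha _ hAa
      have ha0 : 0 < a := lt_of_lt_of_le ha₀ ha
      rw [hA a (by simpa using hAa)]
      have := (nn a ha0).1
      positivity
    | succ n ih =>
      intro a ha he hAa
      have ha0 : 0 < a := lt_of_lt_of_le ha₀ ha
      have hea : e a ≤ 8 * Real.pi := ((mono (a / 2) a (by positivity) (by linarith)).2).trans he
      have e2 : 2 * a / 2 = a := by ring
      have h1 := ih (2 * a) (by linarith) (by rw [e2]; exact hea) (by rw [pow_succ] at hAa; linarith)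
      have h2 := s1 (2 * a) (by linarith) (by rw [e2]; exact hea)
      rw [e2] at h2
      have h4 := kap (2 * a) (by linarith)
      have hm := (nn a ha0).1
      have h5 : m (2 * a) ≤ 1 / 16 * m a := h2.trans (mul_le_mul_of_nonneg_right h4 hm)
      have h6 := (h3 a ha0).2.1
      have h7 : 16 / 3 * (2 * a) ^ 2 * m (2 * a) ≤ 16 / 3 * (2 * a) ^ 2 * (1 / 16 * m a) :=
        mul_le_mul_of_nonneg_left h5 (by positivity)
      nlinarith
  have s3 : ∀ a, a₀ ≤ a → e (a / 2) ≤ 8 * Real.pi → e a ≤ (B / a) ^ 2 := by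
    intro a ha he
    have ha0 : 0 < a := lt_of_lt_of_le ha₀ ha
    obtain ⟨n, hn⟩ : ∃ n : ℕ, A₀ / a < 2 ^ n := pow_unbounded_of_one_lt _ (by norm_num)
    have hn' : A₀ ≤ 2 ^ n * a := by
      rw [div_lt_iff₀ ha0] at hn
      exact hn.le
    have h1 := s2 n a ha he hn'
    have h2 := s1 a ha he
    have h4 := (h3 (a / 2) (by positivity)).1
    have hm2 := (nn (a / 2) (by positivity)).1
    have h5 : a ^ 2 * m (a / 2) ≤ 32 * Real.pi := by nlinarith
    have h6 : 16 / 3 * a ^ 2 * m a ≤ 16 / 3 * a ^ 2 * ((B / (8 * Real.pi * a)) ^ 2 * m (a / 2)) :=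
      mul_le_mul_of_nonneg_left h2 (by positivity)
    have h7 : 16 / 3 * a ^ 2 * ((B / (8 * Real.pi * a)) ^ 2 * m (a / 2)) =
        16 / 3 * (B / (8 * Real.pi * a)) ^ 2 * (a ^ 2 * m (a / 2)) := by ring
    have h8 : 16 / 3 * (B / (8 * Real.pi * a)) ^ 2 * (a ^ 2 * m (a / 2)) ≤
        16 / 3 * (B / (8 * Real.pi * a)) ^ 2 * (32 * Real.pi) :=
      mul_le_mul_of_nonneg_left h5 (by positivity)
    have h9 : 16 / 3 * (B / (8 * Real.pi * a)) ^ 2 * (32 * Real.pi) = (B / a) ^ 2 * (8 / (3 * Real.pi)) := by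
      field_simp
      ring
    have h10 : 8 / (3 * Real.pi) ≤ 1 := by
      rw [div_le_one (by positivity)]
      linarith
    have h11 : (B / a) ^ 2 * (8 / (3 * Real.pi)) ≤ (B / a) ^ 2 * 1 :=
      mul_le_mul_of_nonneg_left h10 (by positivity)
    linarith
  -- the first dyadic level with small energy
  have t0 : 8 * Real.pi < e (a₀ / 2) := by
    by_contra hn
    push Not at hn
    have h1 := s3 a₀ le_rfl hn
    have h2 : (B / a₀) ^ 2 < ε₀ := by
      rw [div_pow, div_lt_iff₀ (by positivity)]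
      exact hBε
    linarith
  have hex : ∃ n : ℕ, e (2 ^ n * a₀ / 2) ≤ 8 * Real.pi := by
    obtain ⟨n, hn⟩ : ∃ n : ℕ, 2 * A₀ / a₀ < 2 ^ n := pow_unbounded_of_one_lt _ (by norm_num)
    refine ⟨n, ?_⟩
    rw [div_lt_iff₀ ha₀] at hn
    rw [hA _ (by linarith)]
    positivity
  classical
  obtain ⟨j, hj1, hj2⟩ : ∃ j : ℕ, 8 * Real.pi < e (2 ^ j * a₀ / 2) ∧ e (2 ^ j * a₀) ≤ 8 * Real.pi := by
    have hs := Nat.find_spec hex
    have hm := fun k => Nat.find_min hex (m := k)
    rcases hk : Nat.find hex with _ | j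
    · rw [hk] at hs
      simp only [pow_zero, one_mul] at hs
      exact absurd hs (not_le.2 t0)
    · rw [hk] at hs
      refine ⟨j, not_le.1 (hm j (by omega)), ?_⟩
      have : (2 : ℝ) ^ (j + 1) * a₀ / 2 = 2 ^ j * a₀ := by ring
      rwa [this] at hs
  set a := 2 ^ j * a₀ with hadef
  have haa : a₀ ≤ a := by
    have : (1 : ℝ) ≤ 2 ^ j := one_le_pow₀ (by norm_num)
    nlinarith
  have ha0 : 0 < a := lt_of_lt_of_le ha₀ haa
  have e2 : 2 * a / 2 = a := by ring
  have h1 := s3 (2 * a) (by linarith) (by rw [e2]; exact hj2)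
  have h2 : (B / (2 * a)) ^ 2 ≤ 1 / 4 := by
    have h4 : B / (2 * a) ≤ 1 / 2 := by
      rw [div_le_iff₀ (by positivity)]
      linarith
    have h5 : 0 ≤ B / (2 * a) := by positivity
    nlinarith
  have e3 : 2 * (a / 2) = a := by ring
  have h4 := (h3 (a / 2) (by positivity)).2.1
  rw [e3] at h4
  have h5 := (h3 a ha0).2.1
  have h6 := (mono (a / 2) a (by positivity) (by linarith)).1
  have hx : 4 / a ^ 2 ≤ m (a / 2) := by
    rw [div_le_iff₀ (by positivity)]
    nlinarith [mul_le_mul_of_nonneg_left h6 (by positivity : (0 : ℝ) ≤ 4 * a ^ 2)]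
  have hx0 : 0 < m (a / 2) := lt_of_lt_of_le (by positivity) hx
  have hW : 0 ≤ W := (nn a₀ ha₀).2.trans (h3 a₀ ha₀).2.2
  have hy : m (a / 4) ≤ 4 * W * m (a / 2) := by
    have h7 := (h3 (a / 4) (by positivity)).1
    have h8 := (h3 (a / 4) (by positivity)).2.2
    have h9 : m (a / 4) ≤ 16 * W / a ^ 2 := by
      rw [le_div_iff₀ (by positivity)]
      nlinarith
    have h10 : 4 * W * (4 / a ^ 2) ≤ 4 * W * m (a / 2) := mul_le_mul_of_nonneg_left hx (by positivity)
    have h11 : 4 * W * (4 / a ^ 2) = 16 * W / a ^ 2 := by ring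
    linarith
  have hs : Real.sqrt (m (a / 2) * m (a / 4)) ≤ 2 * Real.sqrt W * m (a / 2) := by
    apply Real.sqrt_le_iff.2
    refine ⟨by positivity, ?_⟩
    have : (2 * Real.sqrt W * m (a / 2)) ^ 2 = m (a / 2) * (4 * W * m (a / 2)) := by
      rw [mul_pow, mul_pow, Real.sq_sqrt hW]
      ring
    rw [this]
    exact mul_le_mul_of_nonneg_left hy hx0.le
  have hc := cap (a / 2) (by positivity)
  have e4 : a / 2 / 2 = a / 4 := by ring
  rw [e4] at hc
  have h12 : B / (a / 2) * Real.sqrt (m (a / 2) * m (a / 4)) ≤ B / (a / 2) * (2 * Real.sqrt W * m (a / 2)) :=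
    mul_le_mul_of_nonneg_left hs (by positivity)
  have h13 : 16 * Real.pi ≤ e (a / 4) + 4 * Real.sqrt W * B / a := by
    have h14 : m (a / 2) * (16 * Real.pi) ≤ m (a / 2) * (e (a / 4) + 4 * Real.sqrt W * B / a) := by
      have : B / (a / 2) * (2 * Real.sqrt W * m (a / 2)) = m (a / 2) * (4 * Real.sqrt W * B / a) := by
        field_simp
        ring
      nlinarith
    exact le_of_mul_le_mul_left h14 hx0
  have h15 := (mono (a₀ / 4) (a / 4) (by positivity) (by linarith)).2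
  have h16 : 4 * Real.sqrt W * B / a ≤ 4 * Real.sqrt W * B / a₀ :=
    div_le_div_of_nonneg_left (by positivity) ha₀ haa
  linarith

end Pool.Agent.Helper51.MS
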