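import Pool.Agent.Helper35.MS.StJ

/-!
Project MS (MP_925021_gt), module FSJ: copy of the proof in Helper41/CL/M_FS.lean for an arbitrary open set of times.
-/

set_option autoImplicit false

namespace Pool.Agent.Helper51.MS

open Helper35.MS
open Helper32.CL
open Helper35.PI Helper35.PI2
open scoped ContDiff Manifold Topology ENNReal BigOperators
open MeasureTheory Set Filter

theorem hFSJ (hMU : StMUJ) (hSG : StSGJ) (_hI2 : StI2J) (_hI3 : StI3J) (_hV1 : StV1) : StFSJ := by
  intro n N M _ _ _ _ _ _ _ S F c χ hS t ht g hg hg0 hint q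
  have hF := hS.mcf
  have hPU := hS.pu
  obtain ⟨s, -, hs⟩ := hMU n N M S F c χ hS
  obtain ⟨-, hLam, hLs⟩ := hs t ht
  have hL : Lam (n := n) F c χ t (fun q => ENNReal.ofReal (g q)) = 0 := by
    have h1 : Measurable fun q => ENNReal.ofReal (g q) :=
      ENNReal.measurable_ofReal.comp hg.measurable
    rw [← hLam (fun q => ENNReal.ofReal (g q)) h1,
      ← ofReal_integral_eq_lintegral_ofReal (hLs g hg).1 (Filter.Eventually.of_forall hg0), hint,
      ENNReal.ofReal_zero]
  -- a chart with positive weight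
  obtain ⟨i, hi⟩ : ∃ i, χ i q ≠ 0 := by
    by_contra h
    push Not at h
    have h1 := hPU.sum q
    simp only [h] at h1
    have := h1.unique hasSum_zero
    norm_num at this
  have hipos : 0 < χ i q := lt_of_le_of_ne (hPU.nonneg i q) (Ne.symm hi)
  set e := chartAt (EE n) (c i) with he
  have hqs : q ∈ e.source := hPU.sub i (subset_tsupport _ hi)
  set y₀ := e q with hy₀
  have hy₀t : y₀ ∈ e.target := e.map_source hqs
  have hsy : e.symm y₀ = q := e.left_inv hqs
  obtain ⟨hσp, hσc⟩ := hSG n N M S F hF (c i)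
  -- the density is positive
  have hσpos : 0 < sgm (loc (n := n) F (c i) t) y₀ := by
    exact hσp y₀ hy₀t t ht
  by_contra hne
  have hgpos : 0 < g q := lt_of_le_of_ne (hg0 q) (Ne.symm hne)
  -- continuity
  have hsymm : ContinuousOn e.symm e.target := e.continuousOn_symm
  have hc1 : ContinuousOn (fun y => g (e.symm y)) e.target := hg.comp_continuousOn hsymm
  have hc3 : ContinuousOn (fun y => sgm (loc (n := n) F (c i) t) y) e.target :=
    hσc.comp (f := fun y => (y, t)) (by fun_prop) (fun y hy => ⟨hy, ht⟩)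
  have hc4 : ContinuousOn (fun y => χ i (e.symm y)) e.target :=
    (hPU.smooth i).continuous.comp_continuousOn hsymm
  set φ : EE n → ℝ := fun y => χ i (e.symm y) * g (e.symm y) *
    sgm (loc (n := n) F (c i) t) y with hφd
  have hφ : ContinuousOn φ e.target := (hc4.mul hc1).mul hc3
  have hφpos : 0 < φ y₀ := by
    simp only [hφd, hsy]
    positivity
  have hev : ∀ᶠ y in 𝓝 y₀, φ y₀ / 2 < φ y ∧ y ∈ e.target := by
    have h1 : ContinuousAt φ y₀ := hφ.continuousAt (e.open_target.mem_nhds hy₀t)
    filter_upwards [h1.eventually (lt_mem_nhds (by linarith : φ y₀ / 2 < φ y₀)),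
      e.open_target.mem_nhds hy₀t] with y h2 h3
    exact ⟨h2, h3⟩
  obtain ⟨r, hr, hball⟩ := Metric.eventually_nhds_iff_ball.1 hev
  -- the integral
  have hterm : (∫⁻ y in e.target, ENNReal.ofReal (χ i (e.symm y)) *
      ENNReal.ofReal (g (e.symm y)) *
        ENNReal.ofReal (sgm (loc (n := n) F (c i) t) y)) = 0 := by
    have h1 := ENNReal.tsum_eq_zero.1 hL i
    exact h1
  have hge : ENNReal.ofReal (φ y₀ / 2) * volume (Metric.ball y₀ r) ≤ 0 := by
    rw [← hterm, ← setLIntegral_const]
    refine le_trans ?_ (lintegral_mono_set (fun y hy => (hball y hy).2))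
    refine setLIntegral_mono' Metric.isOpen_ball.measurableSet ?_
    intro y hy
    rw [← ENNReal.ofReal_mul (hPU.nonneg i _), ← ENNReal.ofReal_mul]
    · exact ENNReal.ofReal_le_ofReal (hball y hy).1.le
    · exact mul_nonneg (hPU.nonneg i _) (hg0 _)
  have hpos2 : 0 < ENNReal.ofReal (φ y₀ / 2) * volume (Metric.ball y₀ r) := by
    apply ENNReal.mul_pos
    · simp only [ne_eq, ENNReal.ofReal_eq_zero, not_le]
      linarith
    · exact (Metric.measure_ball_pos volume y₀ hr).ne'
  exact absurd hge (not_le.2 hpos2)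

end Pool.Agent.Helper51.MS
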