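import Pool.Agent.Helper35.MS.StJ

/-!
Project MS (MP_925021_gt), module I2J: copy of the proof in Helper35/PI/M_I2.lean for an arbitrary open set of times.
-/

set_option autoImplicit false

namespace Pool.Agent.Helper51.MS

open Helper35.MS
open Helper35.PI
open scoped ContDiff Manifold Topology
open MeasureTheory Set Filter

theorem hI2J : StI2J := by
  intro n N M _ _ _ S F hF p₀
  have h1 : ContMDiffOn (𝓡 n) (𝓡 n) ∞ (chartAt (EE n) p₀).symm (chartAt (EE n) p₀).target :=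
    contMDiffOn_chart_symm
  have h2 : ContMDiffOn ((𝓡 n).prod 𝓘(ℝ, ℝ)) ((𝓡 n).prod 𝓘(ℝ, ℝ)) ∞
      (fun z : EE n × ℝ => ((chartAt (EE n) p₀).symm z.1, z.2))
      ((chartAt (EE n) p₀).target ×ˢ S) := by
    refine ContMDiffOn.prodMk ?_ ?_
    · exact h1.comp contMDiff_fst.contMDiffOn (fun z hz => hz.1)
    · exact contMDiff_snd.contMDiffOn
  have h3 : ContMDiffOn ((𝓡 n).prod 𝓘(ℝ, ℝ)) 𝓘(ℝ, EE N) ∞
      (fun z : EE n × ℝ => F ((chartAt (EE n) p₀).symm z.1) z.2)
      ((chartAt (EE n) p₀).target ×ˢ S) := by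
    have := hF.smooth.comp h2 (fun z hz => ⟨mem_univ _, hz.2⟩)
    exact this
  rw [← contMDiffOn_iff_contDiffOn]
  rw [modelWithCornersSelf_prod, ← chartedSpaceSelf_prod]
  exact h3

end Pool.Agent.Helper51.MS
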