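import Pool.Agent.Helper35.MS.StJ

/-!
Project MS (MP_925021_gt), module I3J: copy of the proof in Helper91/PI/M_I3.lean for an arbitrary open set of times.
-/

set_option autoImplicit false

namespace Pool.Agent.Helper51.MS

open Helper35.MS
open Helper35.PI
open scoped ContDiff Manifold Topology
open MeasureTheory Set Filter

/-- I3: the geometric quantities may be computed in any preferred chart -/
theorem hI3J (hI1 : StI1) (hI2 : StI2J) : StI3J := by
  intro n N M _ _ _ S F hF p₀ q t ht hq
  have hqq : q ∈ (chartAt (EE n) q).source := mem_chart_source (EE n) q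
  have hxt : chartAt (EE n) q q ∈ (chartAt (EE n) q).target :=
    (chartAt (EE n) q).map_source hqq
  have hsymm : (chartAt (EE n) q).symm (chartAt (EE n) q q) = q :=
    (chartAt (EE n) q).left_inv hqq
  have h2le : (2 : WithTop ℕ∞) ≤ ∞ := by
    have : ((2 : ℕ∞) : WithTop ℕ∞) ≤ ((⊤ : ℕ∞) : WithTop ℕ∞) := WithTop.coe_le_coe.2 le_top
    exact this
  -- the transition map
  have hφ : ContDiffAt ℝ 2 (fun y => chartAt (EE n) p₀ ((chartAt (EE n) q).symm y))
      (chartAt (EE n) q q) := by
    have h := contDiffWithinAt_ext_coord_change (I := 𝓡 n) (n := ∞) (𝕜 := ℝ) p₀ q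
      (y := chartAt (EE n) q q) (by
        rw [ext_coord_change_source]
        refine ⟨chartAt (EE n) q q, ?_, rfl⟩
        rw [OpenPartialHomeomorph.trans_source]
        refine ⟨hxt, ?_⟩
        change (chartAt (EE n) q).symm (chartAt (EE n) q q) ∈ (chartAt (EE n) p₀).source
        rw [hsymm]
        exact hq)
    rw [ModelWithCorners.range_eq_univ, contDiffWithinAt_univ] at h
    exact h.of_le h2le
  have hφx : chartAt (EE n) p₀ ((chartAt (EE n) q).symm (chartAt (EE n) q q))
      = chartAt (EE n) p₀ q := by rw [hsymm]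
  -- smoothness of the flow in the chart of `p₀`
  have hf : ContDiffAt ℝ 2 (loc (n := n) F p₀ t) (chartAt (EE n) p₀ q) := by
    have h := hI2 n N M S F hF p₀
    have hmem : (chartAt (EE n) p₀).target ×ˢ S ∈ 𝓝 (chartAt (EE n) p₀ q, t) :=
      prod_mem_nhds ((chartAt (EE n) p₀).open_target.mem_nhds ((chartAt (EE n) p₀).map_source hq))
        (hF.op.mem_nhds ht)
    have h2 : ContDiffAt ℝ ∞ (fun z : EE n × ℝ => F ((chartAt (EE n) p₀).symm z.1) z.2)
        (chartAt (EE n) p₀ q, t) := h.contDiffAt hmem
    have h3 : ContDiffAt ℝ 2 (fun z : EE n × ℝ => F ((chartAt (EE n) p₀).symm z.1) z.2)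
        (chartAt (EE n) p₀ q, t) := h2.of_le h2le
    have h4 : ContDiffAt ℝ 2 (fun y : EE n => (y, t)) (chartAt (EE n) p₀ q) :=
      contDiffAt_id.prodMk contDiffAt_const
    exact h3.comp (chartAt (EE n) p₀ q) h4
  have heq : loc (n := n) F q t =ᶠ[𝓝 (chartAt (EE n) q q)]
      (fun y => loc (n := n) F p₀ t (chartAt (EE n) p₀ ((chartAt (EE n) q).symm y))) := by
    have hc : ContinuousAt (chartAt (EE n) q).symm (chartAt (EE n) q q) :=
      (chartAt (EE n) q).continuousAt_symm hxt
    have hev : ∀ᶠ y in 𝓝 (chartAt (EE n) q q),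
        (chartAt (EE n) q).symm y ∈ (chartAt (EE n) p₀).source := by
      apply hc.eventually_mem
      rw [hsymm]
      exact (chartAt (EE n) p₀).open_source.mem_nhds hq
    filter_upwards [hev] with y hy
    unfold loc
    rw [(chartAt (EE n) p₀).left_inv hy]
  have hLI : LI (loc (n := n) F q t) (chartAt (EE n) q q) := hF.imm q t ht
  have key := hI1 n N (loc (n := n) F p₀ t) (loc (n := n) F q t)
    (fun y => chartAt (EE n) p₀ ((chartAt (EE n) q).symm y)) (chartAt (EE n) q q)
    (by rw [hφx]; exact hf) hφ heq hLI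
  simp only [hφx] at key
  exact key

end Pool.Agent.Helper51.MS
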