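import Pool.Agent.Helper35.MS.StJ

/-!
Project MS (MP_925021_gt), module I4J: copy of the proof in Helper75/PI/M_I4.lean for an arbitrary open set of times.
-/

set_option autoImplicit false

namespace Pool.Agent.Helper51.MS

open Helper35.MS
open Helper35.PI
open scoped ContDiff Manifold Topology
open MeasureTheory Set Filter

theorem hI4J (hSM : StSM) (hI2 : StI2J) (hI3 : StI3J) : StI4J := by
  intro n N M _ _ _ S F hF
  have key : ∀ (p₀ : M) (t₀ : ℝ), t₀ ∈ S →
      ContinuousAt (fun z : M × ℝ => F z.1 z.2) (p₀, t₀) ∧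
      ContinuousAt (fun z : M × ℝ => HH (n := n) F z.1 z.2) (p₀, t₀) ∧
      ContinuousAt (fun z : M × ℝ => AA (n := n) F z.1 z.2) (p₀, t₀) ∧
      ContinuousAt (fun z : M × ℝ => ZF (n := n) F z.1 z.2) (p₀, t₀) := by
    intro p₀ t₀ ht₀
    have hsrc : p₀ ∈ (chartAt (EE n) p₀).source := mem_chart_source _ _
    let f : EE n × ℝ → EE N := fun z => F ((chartAt (EE n) p₀).symm z.1) z.2
    have hf : ContDiffAt ℝ ∞ f (chartAt (EE n) p₀ p₀, t₀) := by
      apply (hI2 n N M S F hF p₀).contDiffAt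
      exact ((chartAt (EE n) p₀).open_target.prod hF.op).mem_nhds
        ⟨(chartAt (EE n) p₀).map_source hsrc, ht₀⟩
    have hLI : LI (fun y => f (y, (chartAt (EE n) p₀ p₀, t₀).2)) (chartAt (EE n) p₀ p₀, t₀).1 :=
      (hI3 n N M S F hF p₀ p₀ t₀ ht₀ hsrc).1
    obtain ⟨-, -, -, -, -, -, -, hm, hn, hz⟩ := hSM n N f (chartAt (EE n) p₀ p₀, t₀) hf hLI
    have hg : ContinuousAt (fun z : M × ℝ => (chartAt (EE n) p₀ z.1, z.2)) (p₀, t₀) :=
      (ContinuousAt.comp (x := ((p₀, t₀) : M × ℝ)) (f := Prod.fst)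
        ((chartAt (EE n) p₀).continuousAt hsrc) continuousAt_fst).prodMk continuousAt_snd
    have hU : ∀ᶠ z in 𝓝 ((p₀, t₀) : M × ℝ), z.1 ∈ (chartAt (EE n) p₀).source ∧ z.2 ∈ S :=
      ((chartAt (EE n) p₀).open_source.prod hF.op).mem_nhds ⟨hsrc, ht₀⟩
    refine ⟨?_, ?_, ?_, ?_⟩
    · have h1 : ContinuousAt (fun z : M × ℝ => f (chartAt (EE n) p₀ z.1, z.2)) (p₀, t₀) :=
        ContinuousAt.comp (f := fun z : M × ℝ => (chartAt (EE n) p₀ z.1, z.2)) (g := f)
          (x := (p₀, t₀)) hf.continuousAt hg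
      refine h1.congr (hU.mono fun z hz => ?_)
      simp only [f]
      rw [(chartAt (EE n) p₀).left_inv hz.1]
    · have h1 : ContinuousAt (fun z : M × ℝ =>
          mcv (fun y => f (y, z.2)) (chartAt (EE n) p₀ z.1)) (p₀, t₀) :=
        ContinuousAt.comp (f := fun z : M × ℝ => (chartAt (EE n) p₀ z.1, z.2))
          (g := fun z => mcv (fun y => f (y, z.2)) z.1)
          (x := (p₀, t₀)) hm.continuousAt hg
      exact h1.congr (hU.mono fun z hz => (hI3 n N M S F hF p₀ z.1 z.2 hz.2 hz.1).2.1.symm)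
    · have h1 : ContinuousAt (fun z : M × ℝ =>
          nsq (fun y => f (y, z.2)) (chartAt (EE n) p₀ z.1)) (p₀, t₀) :=
        ContinuousAt.comp (f := fun z : M × ℝ => (chartAt (EE n) p₀ z.1, z.2))
          (g := fun z => nsq (fun y => f (y, z.2)) z.1)
          (x := (p₀, t₀)) hn.continuousAt hg
      exact h1.congr (hU.mono fun z hz => (hI3 n N M S F hF p₀ z.1 z.2 hz.2 hz.1).2.2.1.symm)
    · have h1 : ContinuousAt (fun z : M × ℝ =>
          zsq (fun y => f (y, z.2)) (chartAt (EE n) p₀ z.1)) (p₀, t₀) :=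
        ContinuousAt.comp (f := fun z : M × ℝ => (chartAt (EE n) p₀ z.1, z.2))
          (g := fun z => zsq (fun y => f (y, z.2)) z.1)
          (x := (p₀, t₀)) hz.continuousAt hg
      exact h1.congr (hU.mono fun z hz => (hI3 n N M S F hF p₀ z.1 z.2 hz.2 hz.1).2.2.2.1.symm)
  refine ⟨fun z hz => ?_, fun z hz => ?_, fun z hz => ?_, fun z hz => ?_⟩
  · exact (key z.1 z.2 hz.2).1.continuousWithinAt
  · exact (key z.1 z.2 hz.2).2.1.continuousWithinAt
  · exact (key z.1 z.2 hz.2).2.2.1.continuousWithinAt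
  · exact (key z.1 z.2 hz.2).2.2.2.continuousWithinAt

end Pool.Agent.Helper51.MS
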