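import Pool.Agent.Helper35.MS.StJ

/-!
Project MS (MP_925021_gt), module MAJ: copy of the proof in Helper12/PI2/M_MA.lean for an arbitrary open set of times.
-/

set_option autoImplicit false

namespace Pool.Agent.Helper51.MS

open Helper35.MS
open Helper35.PI Helper35.PI2
open scoped ContDiff Manifold Topology
open MeasureTheory Set Filter

/-- smoothness of the flow at a fixed time in the chart of `p` -/
private theorem loc_smooth (hI2 : StI2J) {n N : ℕ} {M : Type} [TopologicalSpace M] [ChartedSpace (EE n) M]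
    [IsManifold (𝓡 n) ∞ M] {S : Set ℝ} {F : M → ℝ → EE N} (hF : IsImmJ (n := n) S F) {t : ℝ} (ht : t ∈ S)
    (p q : M) (hq : q ∈ (chartAt (EE n) p).source) :
    ContDiffAt ℝ ∞ (loc (n := n) F p t) (chartAt (EE n) p q) := by
  have h := hI2 n N M S F hF p
  have hmem : (chartAt (EE n) p).target ×ˢ S ∈ 𝓝 (chartAt (EE n) p q, t) :=
    prod_mem_nhds ((chartAt (EE n) p).open_target.mem_nhds ((chartAt (EE n) p).map_source hq))
      (hF.op.mem_nhds ht)
  have h2 : ContDiffAt ℝ ∞ (fun z : EE n × ℝ => F ((chartAt (EE n) p).symm z.1) z.2)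
      (chartAt (EE n) p q, t) := h.contDiffAt hmem
  have h4 : ContDiffAt ℝ ∞ (fun y : EE n => (y, t)) (chartAt (EE n) p q) :=
    contDiffAt_id.prodMk contDiffAt_const
  exact h2.comp (chartAt (EE n) p q) h4

/-- the field may be computed in any chart -/
private theorem VF_chart (hIB : StIB) (hI2 : StI2J) {n N : ℕ} {M : Type} [TopologicalSpace M]
    [ChartedSpace (EE n) M] [IsManifold (𝓡 n) ∞ M] {S : Set ℝ} {F : M → ℝ → EE N} (hF : IsImmJ (n := n) S F)
    {μ t : ℝ} (ht : t ∈ S) (p q : M) (hq : q ∈ (chartAt (EE n) p).source) :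
    VF n μ F t q = vfd μ (loc (n := n) F p t) (chartAt (EE n) p q) := by
  have hqq : q ∈ (chartAt (EE n) q).source := mem_chart_source (EE n) q
  have hxt : chartAt (EE n) q q ∈ (chartAt (EE n) q).target :=
    (chartAt (EE n) q).map_source hqq
  have hsymm : (chartAt (EE n) q).symm (chartAt (EE n) q q) = q :=
    (chartAt (EE n) q).left_inv hqq
  have hφ : ContDiffAt ℝ ∞ (fun y => chartAt (EE n) p ((chartAt (EE n) q).symm y))
      (chartAt (EE n) q q) := by
    have h := contDiffWithinAt_ext_coord_change (I := 𝓡 n) (n := ∞) (𝕜 := ℝ) p q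
      (y := chartAt (EE n) q q) (by
        rw [ext_coord_change_source]
        refine ⟨chartAt (EE n) q q, ?_, rfl⟩
        rw [OpenPartialHomeomorph.trans_source]
        refine ⟨hxt, ?_⟩
        change (chartAt (EE n) q).symm (chartAt (EE n) q q) ∈ (chartAt (EE n) p).source
        rw [hsymm]
        exact hq)
    rw [ModelWithCorners.range_eq_univ, contDiffWithinAt_univ] at h
    exact h
  have hφx : chartAt (EE n) p ((chartAt (EE n) q).symm (chartAt (EE n) q q))
      = chartAt (EE n) p q := by rw [hsymm]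
  have heq : loc (n := n) F q t =ᶠ[𝓝 (chartAt (EE n) q q)]
      (fun y => loc (n := n) F p t (chartAt (EE n) p ((chartAt (EE n) q).symm y))) := by
    have hc : ContinuousAt (chartAt (EE n) q).symm (chartAt (EE n) q q) :=
      (chartAt (EE n) q).continuousAt_symm hxt
    have hev : ∀ᶠ y in 𝓝 (chartAt (EE n) q q),
        (chartAt (EE n) q).symm y ∈ (chartAt (EE n) p).source := by
      apply hc.eventually_mem
      rw [hsymm]
      exact (chartAt (EE n) p).open_source.mem_nhds hq
    filter_upwards [hev] with y hy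
    unfold loc
    rw [(chartAt (EE n) p).left_inv hy]
  have hf : ContDiffAt ℝ ∞ (loc (n := n) F p t)
      (chartAt (EE n) p ((chartAt (EE n) q).symm (chartAt (EE n) q q))) := by
    rw [hφx]
    exact loc_smooth hI2 hF ht p q hq
  have h := (hIB n N (loc (n := n) F p t) (loc (n := n) F q t)
    (fun y => chartAt (EE n) p ((chartAt (EE n) q).symm y)) (chartAt (EE n) q q)
    hf hφ heq (hF.imm q t ht) μ).1
  unfold VF
  rw [h, hφx]

/-- Module MAJ. -/
theorem hMAJ (hIS : StIS) (hIB : StIB) (hI2 : StI2J) (_hI3 : StI3J) : StMAJ := by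
  intro n N M _ _ _ S F hF μ t ht
  have h1le : (1 : WithTop ℕ∞) ≤ ∞ := by
    have : ((1 : ℕ∞) : WithTop ℕ∞) ≤ ((⊤ : ℕ∞) : WithTop ℕ∞) := WithTop.coe_le_coe.2 le_top
    exact this
  have hsm : ∀ q : M, ContDiffAt ℝ ∞ (loc (n := n) F q t) (chartAt (EE n) q q) := fun q =>
    loc_smooth hI2 hF ht q q (mem_chart_source (EE n) q)
  refine ⟨?_, ?_, ?_, ?_⟩
  · intro q
    have hq : q ∈ (chartAt (EE n) q).source := mem_chart_source (EE n) q
    have hv := (hIS n N _ _ (hsm q) (hF.imm q t ht) μ).2.2.1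
    have hv1 : ContMDiffAt 𝓘(ℝ, EE n) 𝓘(ℝ, EE N) 1 (vfd μ (loc (n := n) F q t))
        (chartAt (EE n) q q) := (hv.of_le h1le).contMDiffAt
    have hc : ContMDiffAt (𝓡 n) (𝓡 n) 1 (chartAt (EE n) q) q := by
      have := (contMDiffOn_chart (I := 𝓡 n) (n := ∞) (H := EE n) (x := q)).contMDiffAt
        ((chartAt (EE n) q).open_source.mem_nhds hq)
      exact this.of_le h1le
    have h := ContMDiffAt.comp q (hv1 : ContMDiffAt (𝓡 n) 𝓘(ℝ, EE N) 1
      (vfd μ (loc (n := n) F q t)) (chartAt (EE n) q q)) hc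
    refine h.congr_of_eventuallyEq ?_
    filter_upwards [(chartAt (EE n) q).open_source.mem_nhds hq] with q' hq'
    exact VF_chart hIB hI2 hF ht q q' hq'
  · intro q
    exact (hIS n N _ _ (hsm q) (hF.imm q t ht) μ).2.2.2.2.2
  · intro q
    exact (hIS n N _ _ (hsm q) (hF.imm q t ht) μ).2.2.2.2.1
  · intro q
    have hxt : chartAt (EE n) q q ∈ (chartAt (EE n) q).target :=
      (chartAt (EE n) q).map_source (mem_chart_source (EE n) q)
    have he : (fun y => VF n μ F t ((chartAt (EE n) q).symm y)) =ᶠ[𝓝 (chartAt (EE n) q q)]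
        vfd μ (loc (n := n) F q t) := by
      filter_upwards [(chartAt (EE n) q).open_target.mem_nhds hxt] with y hy
      rw [VF_chart hIB hI2 hF ht q _ ((chartAt (EE n) q).map_target hy),
        (chartAt (EE n) q).right_inv hy]
    unfold dvg dvc
    rw [he.fderiv_eq]

end Pool.Agent.Helper51.MS
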