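import Pool.Agent.Helper35.MS.StJ

/-!
Project MS (MP_925021_gt), module V4J: copy of the proof in Helper92/PI/M_V4.lean for an arbitrary open set of times.
-/

set_option autoImplicit false

namespace Pool.Agent.Helper51.MS

open Helper35.MS
open Helper35.PI
open scoped ContDiff Manifold Topology BigOperators
open MeasureTheory Set Filter

section LinV4

variable {n N : ℕ}

/-- the Gram matrix of a composition -/
private theorem det_gram_comp_V4 (f₁ f₂ : EE n → EE N) (y z : EE n) (A : EE n →L[ℝ] EE n)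
    (B : EE n →L[ℝ] EE N) (h1 : HasFDerivAt f₁ (B.comp A) y) (h2 : HasFDerivAt f₂ B z) :
    (gram f₁ y).det = A.det ^ 2 * (gram f₂ z).det := by
  classical
  set b := (EuclideanSpace.basisFun (Fin n) ℝ).toBasis with hb
  set J : Matrix (Fin n) (Fin n) ℝ := LinearMap.toMatrix b b (A : EE n →ₗ[ℝ] EE n) with hJ
  have hbe : ∀ i, b i = (ee i : EE n) := by intro i; simp [hb, ee]
  have hAe : ∀ i, A (ee i) = ∑ k, J k i • (ee k : EE n) := by
    intro i
    have h := (b.sum_repr (A (ee i))).symm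
    rw [h]
    refine Finset.sum_congr rfl fun k _ => ?_
    rw [hJ, LinearMap.toMatrix_apply, hbe, hbe]
    rfl
  have hdv : ∀ i, dv1 f₁ y i = ∑ k, J k i • dv1 f₂ z k := by
    intro i
    rw [dv1, h1.fderiv, ContinuousLinearMap.comp_apply, hAe, map_sum]
    refine Finset.sum_congr rfl fun k _ => ?_
    rw [map_smul, dv1, h2.fderiv]
  have hg : gram f₁ y = J.transpose * gram f₂ z * J := by
    ext i j
    rw [Matrix.mul_assoc, Matrix.mul_apply]
    simp only [Matrix.mul_apply, Matrix.transpose_apply, gram, Matrix.of_apply]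
    rw [hdv i, hdv j, sum_inner]
    refine Finset.sum_congr rfl fun k _ => ?_
    rw [inner_sum, Finset.mul_sum]
    refine Finset.sum_congr rfl fun l _ => ?_
    rw [real_inner_smul_left, real_inner_smul_right]
    ring
  have hdet : J.det = A.det := by
    rw [hJ, LinearMap.det_toMatrix]
  rw [hg, Matrix.det_mul, Matrix.det_mul, Matrix.det_transpose, hdet]
  ring

private theorem sgm_comp_V4 (f₁ f₂ : EE n → EE N) (y z : EE n) (A : EE n →L[ℝ] EE n)
    (B : EE n →L[ℝ] EE N) (h1 : HasFDerivAt f₁ (B.comp A) y) (h2 : HasFDerivAt f₂ B z) :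
    sgm f₁ y = |A.det| * sgm f₂ z := by
  rw [sgm, sgm, det_gram_comp_V4 f₁ f₂ y z A B h1 h2, Real.sqrt_mul (sq_nonneg _),
    Real.sqrt_sq_eq_abs]

end LinV4

theorem hV4J (hI2 : StI2J) (_hI3 : StI3J) : StV4J := by
  intro n N M _ _ _ JJ F hF t ht p₁ p₂
  classical
  set e₁ := chartAt (EE n) p₁ with he₁
  set e₂ := chartAt (EE n) p₂ with he₂
  set f₁ := loc (n := n) F p₁ t with hf₁
  set f₂ := loc (n := n) F p₂ t with hf₂
  set S : Set (EE n) := e₁.target ∩ e₁.symm ⁻¹' e₂.source with hS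
  set S₂ : Set (EE n) := e₂.target ∩ e₂.symm ⁻¹' e₁.source with hS₂
  have hSo : IsOpen S := e₁.symm.isOpen_inter_preimage e₂.open_source
  have hS₂o : IsOpen S₂ := e₂.symm.isOpen_inter_preimage e₁.open_source
  set τ : EE n → EE n := fun y => e₂ (e₁.symm y) with hτ
  -- smoothness of the transition map
  have hτs : ContDiffOn ℝ ∞ τ S := by
    have h1 : e₁.symm.trans e₂ ∈ contDiffGroupoid ∞ (𝓡 n) :=
      HasGroupoid.compatible (chart_mem_atlas _ _) (chart_mem_atlas _ _)
    have h2 := contMDiffOn_of_mem_contDiffGroupoid h1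
    rw [contMDiffOn_iff_contDiffOn] at h2
    have h3 : (e₁.symm.trans e₂).source = S := by
      rw [OpenPartialHomeomorph.trans_source]; rfl
    rw [h3] at h2
    exact h2
  have hne : (∞ : WithTop ℕ∞) ≠ 0 := by simp
  have hτd : ∀ y ∈ S, HasFDerivAt τ (fderiv ℝ τ y) y := fun y hy =>
    ((hτs.contDiffAt (hSo.mem_nhds hy)).differentiableAt hne).hasFDerivAt
  have hτS : ∀ y ∈ S, τ y ∈ S₂ := by
    intro y hy
    refine ⟨e₂.map_source hy.2, ?_⟩
    show e₂.symm (e₂ (e₁.symm y)) ∈ e₁.source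
    rw [e₂.left_inv hy.2]
    exact e₁.map_target hy.1
  have himg : τ '' S = S₂ := by
    apply Set.Subset.antisymm
    · rintro _ ⟨y, hy, rfl⟩
      exact hτS y hy
    · intro z hz
      refine ⟨e₁ (e₂.symm z), ⟨e₁.map_source hz.2, ?_⟩, ?_⟩
      · show e₁.symm (e₁ (e₂.symm z)) ∈ e₂.source
        rw [e₁.left_inv hz.2]
        exact e₂.map_target hz.1
      · show e₂ (e₁.symm (e₁ (e₂.symm z))) = z
        rw [e₁.left_inv hz.2, e₂.right_inv hz.1]
  have hinj : InjOn τ S := by
    intro y hy y' hy' h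
    have h1 : e₁.symm y = e₁.symm y' := e₂.injOn hy.2 hy'.2 h
    have h2 := congrArg e₁ h1
    rwa [e₁.right_inv hy.1, e₁.right_inv hy'.1] at h2
  -- differentiability of `f₂`
  have hf₂d : ∀ z ∈ e₂.target, DifferentiableAt ℝ f₂ z := by
    intro z hz
    have h1 := hI2 n N M JJ F hF p₂
    have h2 : ContDiffAt ℝ ∞ (fun z : EE n × ℝ => F ((chartAt (EE n) p₂).symm z.1) z.2) (z, t) :=
      h1.contDiffAt ((e₂.open_target.prod hF.op).mem_nhds ⟨hz, ht⟩)
    have h3 : DifferentiableAt ℝ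
        (fun z : EE n × ℝ => F ((chartAt (EE n) p₂).symm z.1) z.2) (z, t) :=
      h2.differentiableAt hne
    have h4 : DifferentiableAt ℝ (fun y : EE n => (y, t)) z :=
      differentiableAt_id.prodMk (differentiableAt_const t)
    exact DifferentiableAt.comp z (f := fun y : EE n => (y, t)) h3 h4
  have hff : ∀ y ∈ S, f₁ y = f₂ (τ y) := by
    intro y hy
    show F (e₁.symm y) t = F (e₂.symm (e₂ (e₁.symm y))) t
    rw [e₂.left_inv hy.2]
  have hf₁d : ∀ y ∈ S, HasFDerivAt f₁ ((fderiv ℝ f₂ (τ y)).comp (fderiv ℝ τ y)) y := by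
    intro y hy
    have h1 : HasFDerivAt (fun y => f₂ (τ y)) ((fderiv ℝ f₂ (τ y)).comp (fderiv ℝ τ y)) y :=
      (hf₂d (τ y) (hτS y hy).1).hasFDerivAt.comp y (hτd y hy)
    refine h1.congr_of_eventuallyEq ?_
    filter_upwards [hSo.mem_nhds hy] with y' hy'
    exact hff y' hy'
  have hsg : ∀ y ∈ S, sgm f₁ y = |(fderiv ℝ τ y).det| * sgm f₂ (τ y) := by
    intro y hy
    exact sgm_comp_V4 f₁ f₂ y (τ y) _ _ (hf₁d y hy) (hf₂d (τ y) (hτS y hy).1).hasFDerivAt
  have hback : ∀ y ∈ S, e₂.symm (τ y) = e₁.symm y := fun y hy => e₂.left_inv hy.2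
  have hSsub : S ⊆ e₁.target := inter_subset_left
  have hS₂sub : S₂ ⊆ e₂.target := inter_subset_left
  constructor
  · intro g hg
    have z1 : ∀ y ∈ e₁.target \ S, g (e₁.symm y) * ENNReal.ofReal (sgm f₁ y) = 0 := by
      intro y hy
      by_cases h : g (e₁.symm y) = 0
      · rw [h, zero_mul]
      · exact absurd ⟨hy.1, (hg _ h).2⟩ hy.2
    have z2 : ∀ y ∈ e₂.target \ S₂, g (e₂.symm y) * ENNReal.ofReal (sgm f₂ y) = 0 := by
      intro y hy
      by_cases h : g (e₂.symm y) = 0
      · rw [h, zero_mul]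
      · exact absurd ⟨hy.1, (hg _ h).1⟩ hy.2
    have r1 : ∫⁻ y in e₁.target, g (e₁.symm y) * ENNReal.ofReal (sgm f₁ y)
        = ∫⁻ y in S, g (e₁.symm y) * ENNReal.ofReal (sgm f₁ y) := by
      have h1 : e₁.target = S ∪ (e₁.target \ S) := (Set.union_sdiff_cancel hSsub).symm
      rw [h1, lintegral_union (e₁.open_target.measurableSet.diff hSo.measurableSet)
        Set.disjoint_sdiff_right, setLIntegral_eq_zero
        (e₁.open_target.measurableSet.diff hSo.measurableSet) z1, add_zero]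
    have r2 : ∫⁻ y in e₂.target, g (e₂.symm y) * ENNReal.ofReal (sgm f₂ y)
        = ∫⁻ y in S₂, g (e₂.symm y) * ENNReal.ofReal (sgm f₂ y) := by
      have h1 : e₂.target = S₂ ∪ (e₂.target \ S₂) := (Set.union_sdiff_cancel hS₂sub).symm
      rw [h1, lintegral_union (e₂.open_target.measurableSet.diff hS₂o.measurableSet)
        Set.disjoint_sdiff_right, setLIntegral_eq_zero
        (e₂.open_target.measurableSet.diff hS₂o.measurableSet) z2, add_zero]
    rw [r1, r2, ← himg, lintegral_image_eq_lintegral_abs_det_fderiv_mul volume hSo.measurableSet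
      (fun y hy => (hτd y hy).hasFDerivWithinAt) hinj]
    refine setLIntegral_congr_fun hSo.measurableSet fun y hy => ?_
    show g (e₁.symm y) * ENNReal.ofReal (sgm f₁ y) = ENNReal.ofReal |(fderiv ℝ τ y).det| *
      (g (e₂.symm (τ y)) * ENNReal.ofReal (sgm f₂ (τ y)))
    rw [hsg y hy, hback y hy, ENNReal.ofReal_mul (abs_nonneg _)]
    ring
  · intro g hg
    have z1 : ∀ y ∈ e₁.target \ S, g (e₁.symm y) * sgm f₁ y = 0 := by
      intro y hy
      by_cases h : g (e₁.symm y) = 0
      · rw [h, zero_mul]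
      · exact absurd ⟨hy.1, (hg _ h).2⟩ hy.2
    have z2 : ∀ y ∈ e₂.target \ S₂, g (e₂.symm y) * sgm f₂ y = 0 := by
      intro y hy
      by_cases h : g (e₂.symm y) = 0
      · rw [h, zero_mul]
      · exact absurd ⟨hy.1, (hg _ h).1⟩ hy.2
    have r1 : ∫ y in e₁.target, g (e₁.symm y) * sgm f₁ y
        = ∫ y in S, g (e₁.symm y) * sgm f₁ y :=
      setIntegral_eq_of_subset_of_forall_sdiff_eq_zero e₁.open_target.measurableSet hSsub z1
    have r2 : ∫ y in e₂.target, g (e₂.symm y) * sgm f₂ y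
        = ∫ y in S₂, g (e₂.symm y) * sgm f₂ y :=
      setIntegral_eq_of_subset_of_forall_sdiff_eq_zero e₂.open_target.measurableSet hS₂sub z2
    rw [r1, r2, ← himg, integral_image_eq_integral_abs_det_fderiv_smul volume hSo.measurableSet
      (fun y hy => (hτd y hy).hasFDerivWithinAt) hinj]
    refine setIntegral_congr_fun hSo.measurableSet fun y hy => ?_
    show g (e₁.symm y) * sgm f₁ y = |(fderiv ℝ τ y).det| •
      (g (e₂.symm (τ y)) * sgm f₂ (τ y))
    rw [hsg y hy, hback y hy, smul_eq_mul]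
    ring

end Pool.Agent.Helper51.MS
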