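import Pool.Agent.Helper35.MS.StJ

/-!
Project MS (MP_925021_gt), module V6aJ: copy of the proof in Helper51/PI/M_V6a.lean for an arbitrary open set of times.
-/

set_option autoImplicit false

namespace Pool.Agent.Helper51.MS

open Helper35.MS
open Helper35.PI
open scoped ContDiff Manifold Topology
open MeasureTheory Set Filter

/-- the Gram matrix of independent vectors is invertible -/
private theorem gram_det_ne {n N : ℕ} (f : EE n → EE N) (x : EE n) (h : LI f x) :
    (gram f x).det ≠ 0 := by
  intro h0
  obtain ⟨v, hv, hv0⟩ := Matrix.exists_mulVec_eq_zero_iff.mpr h0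
  apply hv
  have h1 : (∑ i, v i • dv1 f x i) = 0 := by
    rw [← norm_eq_zero, ← sq_eq_zero_iff, ← real_inner_self_eq_norm_sq]
    simp only [sum_inner, inner_sum, real_inner_smul_left, real_inner_smul_right]
    have h2 : ∀ i, (gram f x).mulVec v i = 0 := fun i => by rw [hv0]; rfl
    have h3 : ∀ i, ∑ j, v j * (inner ℝ (dv1 f x i) (dv1 f x j) : ℝ) = 0 := by
      intro i
      have := h2 i
      simp only [Matrix.mulVec, dotProduct, gram, Matrix.of_apply] at this
      rw [← this]
      exact Finset.sum_congr rfl fun j _ => mul_comm _ _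
    refine Finset.sum_eq_zero fun i _ => ?_
    rw [← Finset.mul_sum]
    have h5 : ∑ j, v j * (inner ℝ (dv1 f x j) (dv1 f x i) : ℝ) = 0 := by
      rw [← h3 i]
      exact Finset.sum_congr rfl fun j _ => by rw [real_inner_comm]
    rw [h5, mul_zero]
  have h4 := (Fintype.linearIndependent_iff.mp h) v h1
  funext i
  exact h4 i

/-- matrix form of the invariance of the contraction -/
private theorem contract_inv {n : ℕ} (J G W : Matrix (Fin n) (Fin n) ℝ)
    (h : (J.transpose * G * J).det ≠ 0) :
    ∑ i, ∑ j, (J.transpose * G * J)⁻¹ i j * (J.transpose * W * J) i j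
      = ∑ a, ∑ b, G⁻¹ a b * W a b := by
  have hJ : J.det ≠ 0 := by
    intro h0
    apply h
    rw [Matrix.det_mul, h0, mul_zero]
  have hJu : IsUnit J.det := isUnit_iff_ne_zero.mpr hJ
  have hJt : IsUnit J.transpose.det := by rw [Matrix.det_transpose]; exact hJu
  have e1 : (J.transpose * G * J)⁻¹ = J⁻¹ * G⁻¹ * (J.transpose)⁻¹ := by
    rw [Matrix.mul_inv_rev, Matrix.mul_inv_rev, Matrix.mul_assoc]
  have key : ∀ P Q : Matrix (Fin n) (Fin n) ℝ,
      ∑ i, ∑ j, P i j * Q i j = (P.transpose * Q).trace := by
    intro P Q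
    simp only [Matrix.trace, Matrix.diag_apply, Matrix.mul_apply, Matrix.transpose_apply]
    rw [Finset.sum_comm]
  rw [key, key, e1]
  have e2 : (J⁻¹ * G⁻¹ * (J.transpose)⁻¹).transpose
      = J⁻¹ * G⁻¹.transpose * (J.transpose)⁻¹ := by
    rw [Matrix.transpose_mul, Matrix.transpose_mul, Matrix.transpose_nonsing_inv J.transpose,
      Matrix.transpose_transpose, Matrix.transpose_nonsing_inv J, Matrix.mul_assoc]
  rw [e2]
  have e3 : J⁻¹ * G⁻¹.transpose * (J.transpose)⁻¹ * (J.transpose * W * J)
      = J⁻¹ * (G⁻¹.transpose * W * J) := by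
    have : (J.transpose)⁻¹ * (J.transpose * W * J) = W * J := by
      rw [← Matrix.mul_assoc, ← Matrix.mul_assoc, Matrix.nonsing_inv_mul _ hJt, Matrix.one_mul]
    rw [Matrix.mul_assoc (J⁻¹ * G⁻¹.transpose), this]
    simp only [Matrix.mul_assoc]
  rw [e3, Matrix.trace_mul_comm, Matrix.mul_assoc, Matrix.mul_nonsing_inv _ hJu, Matrix.mul_one]

/-- expansion of a linear map along the coordinate vectors -/
private theorem lin_expand {n : ℕ} {V : Type} [NormedAddCommGroup V] [NormedSpace ℝ V]
    (L : EE n →L[ℝ] V) (v : EE n) : L v = ∑ a, v a • L (ee a) := by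
  have h : v = ∑ a, v a • (ee a : EE n) := by
    ext j
    simp [ee, Finset.sum_apply, Pi.single_apply]
  conv_lhs => rw [h]
  rw [map_sum]
  exact Finset.sum_congr rfl fun a _ => L.map_smul _ _

/-- Module V6aJ. -/
theorem hV6aJ (hI2 : StI2J) (_hI3 : StI3J) : StV6aJ := by
  intro n N M _ _ _ S F hF t ht X p q hX hq
  have hqq : q ∈ (chartAt (EE n) q).source := mem_chart_source (EE n) q
  have hxt : chartAt (EE n) q q ∈ (chartAt (EE n) q).target :=
    (chartAt (EE n) q).map_source hqq
  have hsymm : (chartAt (EE n) q).symm (chartAt (EE n) q q) = q :=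
    (chartAt (EE n) q).left_inv hqq
  have h1le : (1 : WithTop ℕ∞) ≤ ∞ := by
    have : ((1 : ℕ∞) : WithTop ℕ∞) ≤ ((⊤ : ℕ∞) : WithTop ℕ∞) := WithTop.coe_le_coe.2 le_top
    exact this
  -- the transition map
  have hφ : ContDiffAt ℝ 1 (fun y => chartAt (EE n) p ((chartAt (EE n) q).symm y))
      (chartAt (EE n) q q) := by
    have h := contDiffWithinAt_ext_coord_change (I := 𝓡 n) (n := ∞) (𝕜 := ℝ) p q
      (y := chartAt (EE n) q q) (by
        rw [ext_coord_change_source]
        refine ⟨chartAt (EE n) q q, ?_, rfl⟩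
        rw [OpenPartialHomeomorph.trans_source]
        refine ⟨hxt, ?_⟩
        change (chartAt (EE n) q).symm (chartAt (EE n) q q) ∈ (chartAt (EE n) p).source
        rw [hsymm]
        exact hq)
    rw [ModelWithCorners.range_eq_univ, contDiffWithinAt_univ] at h
    exact h.of_le h1le
  have hφx : chartAt (EE n) p ((chartAt (EE n) q).symm (chartAt (EE n) q q))
      = chartAt (EE n) p q := by rw [hsymm]
  -- smoothness of the flow in the chart of `p`
  have hf : ContDiffAt ℝ 1 (loc (n := n) F p t) (chartAt (EE n) p q) := by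
    have h := hI2 n N M S F hF p
    have hmem : (chartAt (EE n) p).target ×ˢ S ∈ 𝓝 (chartAt (EE n) p q, t) :=
      prod_mem_nhds ((chartAt (EE n) p).open_target.mem_nhds ((chartAt (EE n) p).map_source hq))
        (hF.op.mem_nhds ht)
    have h2 : ContDiffAt ℝ ∞ (fun z : EE n × ℝ => F ((chartAt (EE n) p).symm z.1) z.2)
        (chartAt (EE n) p q, t) := h.contDiffAt hmem
    have h3 : ContDiffAt ℝ 1 (fun z : EE n × ℝ => F ((chartAt (EE n) p).symm z.1) z.2)
        (chartAt (EE n) p q, t) := h2.of_le h1le
    have h4 : ContDiffAt ℝ 1 (fun y : EE n => (y, t)) (chartAt (EE n) p q) :=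
      contDiffAt_id.prodMk contDiffAt_const
    exact h3.comp (chartAt (EE n) p q) h4
  -- smoothness of the field in the chart of `p`
  have hXp : ContDiffAt ℝ 1 (fun y => X ((chartAt (EE n) p).symm y)) (chartAt (EE n) p q) := by
    have hpt : chartAt (EE n) p q ∈ (chartAt (EE n) p).target :=
      (chartAt (EE n) p).map_source hq
    have hs : ContMDiffAt (𝓡 n) (𝓡 n) 1 (chartAt (EE n) p).symm (chartAt (EE n) p q) := by
      have := (contMDiffOn_chart_symm (I := 𝓡 n) (n := ∞) (H := EE n) (x := p)).contMDiffAt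
        ((chartAt (EE n) p).open_target.mem_nhds hpt)
      exact this.of_le h1le
    have hleft : (chartAt (EE n) p).symm (chartAt (EE n) p q) = q :=
      (chartAt (EE n) p).left_inv hq
    have hX' : ContMDiffAt (𝓡 n) 𝓘(ℝ, EE N) 1 X
        ((chartAt (EE n) p).symm (chartAt (EE n) p q)) := by rw [hleft]; exact hX
    have h := ContMDiffAt.comp (chartAt (EE n) p q) hX' hs
    exact contMDiffAt_iff_contDiffAt.mp h
  have heq : ∀ {V : Type} (g : M → V), (fun y => g ((chartAt (EE n) q).symm y))
      =ᶠ[𝓝 (chartAt (EE n) q q)] (fun y => g ((chartAt (EE n) p).symm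
        (chartAt (EE n) p ((chartAt (EE n) q).symm y)))) := by
    intro V g
    have hc : ContinuousAt (chartAt (EE n) q).symm (chartAt (EE n) q q) :=
      (chartAt (EE n) q).continuousAt_symm hxt
    have hev : ∀ᶠ y in 𝓝 (chartAt (EE n) q q),
        (chartAt (EE n) q).symm y ∈ (chartAt (EE n) p).source := by
      apply hc.eventually_mem
      rw [hsymm]
      exact (chartAt (EE n) p).open_source.mem_nhds hq
    filter_upwards [hev] with y hy
    rw [(chartAt (EE n) p).left_inv hy]
  have hφd : DifferentiableAt ℝ (fun y => chartAt (EE n) p ((chartAt (EE n) q).symm y))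
      (chartAt (EE n) q q) := hφ.differentiableAt (by norm_num)
  -- the chain rule
  have chain : ∀ {V : Type} [NormedAddCommGroup V] [NormedSpace ℝ V] (g : M → V),
      DifferentiableAt ℝ (fun y => g ((chartAt (EE n) p).symm y)) (chartAt (EE n) p q) →
      ∀ i : Fin n, fderiv ℝ (fun y => g ((chartAt (EE n) q).symm y)) (chartAt (EE n) q q) (ee i)
        = ∑ a, (fderiv ℝ (fun y => chartAt (EE n) p ((chartAt (EE n) q).symm y))
            (chartAt (EE n) q q) (ee i)) a •
          fderiv ℝ (fun y => g ((chartAt (EE n) p).symm y)) (chartAt (EE n) p q) (ee a) := by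
    intro V _ _ g hg i
    rw [(heq g).fderiv_eq]
    have hg' : DifferentiableAt ℝ (fun y => g ((chartAt (EE n) p).symm y))
        ((fun y => chartAt (EE n) p ((chartAt (EE n) q).symm y)) (chartAt (EE n) q q)) := by
      simpa only [hφx] using hg
    have hc := fderiv_comp (chartAt (EE n) q q) hg' hφd
    have hc' : fderiv ℝ (fun y => g ((chartAt (EE n) p).symm
        (chartAt (EE n) p ((chartAt (EE n) q).symm y)))) (chartAt (EE n) q q)
        = (fderiv ℝ (fun y => g ((chartAt (EE n) p).symm y)) (chartAt (EE n) p q)).comp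
          (fderiv ℝ (fun y => chartAt (EE n) p ((chartAt (EE n) q).symm y))
            (chartAt (EE n) q q)) := by
      simp only [hφx] at hc
      exact hc
    rw [hc', ContinuousLinearMap.comp_apply]
    exact lin_expand _ _
  have hLI : LI (loc (n := n) F q t) (chartAt (EE n) q q) := hF.imm q t ht
  have hdet := gram_det_ne _ _ hLI
  -- the matrices
  let J : Matrix (Fin n) (Fin n) ℝ := Matrix.of fun a i =>
    (fderiv ℝ (fun y => chartAt (EE n) p ((chartAt (EE n) q).symm y))
      (chartAt (EE n) q q) (ee i)) a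
  let W : Matrix (Fin n) (Fin n) ℝ := Matrix.of fun a b =>
    (inner ℝ (fderiv ℝ (fun y => X ((chartAt (EE n) p).symm y)) (chartAt (EE n) p q) (ee a))
      (dv1 (loc (n := n) F p t) (chartAt (EE n) p q) b) : ℝ)
  have hdv : ∀ i, dv1 (loc (n := n) F q t) (chartAt (EE n) q q) i
      = ∑ a, J a i • dv1 (loc (n := n) F p t) (chartAt (EE n) p q) a := fun i =>
    chain (fun m => F m t) (hf.differentiableAt (by norm_num)) i
  have hdX : ∀ i, fderiv ℝ (fun y => X ((chartAt (EE n) q).symm y)) (chartAt (EE n) q q) (ee i)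
      = ∑ a, J a i • fderiv ℝ (fun y => X ((chartAt (EE n) p).symm y))
        (chartAt (EE n) p q) (ee a) := fun i =>
    chain X (hXp.differentiableAt (by norm_num)) i
  have hG : gram (loc (n := n) F q t) (chartAt (EE n) q q)
      = J.transpose * gram (loc (n := n) F p t) (chartAt (EE n) p q) * J := by
    ext i j
    simp only [Matrix.mul_apply, Matrix.transpose_apply, gram, Matrix.of_apply, hdv, sum_inner,
      inner_sum, real_inner_smul_left, real_inner_smul_right, Finset.sum_mul]
    refine Finset.sum_congr rfl fun b _ => Finset.sum_congr rfl fun a _ => ?_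
    ring
  have hW : ∀ i j, (inner ℝ (fderiv ℝ (fun y => X ((chartAt (EE n) q).symm y))
      (chartAt (EE n) q q) (ee i)) (dv1 (loc (n := n) F q t) (chartAt (EE n) q q) j) : ℝ)
      = (J.transpose * W * J) i j := by
    intro i j
    simp only [Matrix.mul_apply, Matrix.transpose_apply, W, Matrix.of_apply, hdv, hdX, sum_inner,
      inner_sum, real_inner_smul_left, real_inner_smul_right, Finset.sum_mul]
    refine Finset.sum_congr rfl fun b _ => Finset.sum_congr rfl fun a _ => ?_
    ring
  unfold dvg
  rw [hG] at hdet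
  have := contract_inv J (gram (loc (n := n) F p t) (chartAt (EE n) p q)) W hdet
  rw [← hG] at this
  simp only [← hW] at this
  exact this

end Pool.Agent.Helper51.MS
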