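import Pool.Agent.Helper35.MS.StJ
import Pool.Agent.Helper67.PI.M_V6

/-!
Project MS (MP_925021_gt), module FVJ: copy of the proof in Helper29/CL/M_FV.lean for an arbitrary open set of times.
-/

set_option autoImplicit false

namespace Pool.Agent.Helper51.MS

open Helper35.MS
open Helper32.CL hiding StSM
open Helper35.PI Helper35.PI2
open scoped ContDiff Manifold Topology BigOperators
open MeasureTheory Set Filter

section

variable {n N : ℕ} {M : Type} [TopologicalSpace M] [ChartedSpace (EE n) M] [IsManifold (𝓡 n) ∞ M]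

private theorem chartF (hI2 : StI2J) (S : Set ℝ) (F : M → ℝ → EE N) (hF : IsImmJ (n := n) S F) (p : M) (t : ℝ)
    (ht : t ∈ S) (y : EE n) (hy : y ∈ (chartAt (EE n) p).target) :
    ContDiffAt ℝ ∞ (fun z : EE n × ℝ => F ((chartAt (EE n) p).symm z.1) z.2) (y, t) := by
  have h := hI2 n N M S F hF p
  refine h.contDiffAt ?_
  exact IsOpen.mem_nhds ((chartAt (EE n) p).open_target.prod hF.op) ⟨hy, ht⟩

private theorem chartL (hI3 : StI3J) (S : Set ℝ) (F : M → ℝ → EE N) (hF : IsImmJ (n := n) S F) (p : M) (t : ℝ)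
    (ht : t ∈ S) (y : EE n) (hy : y ∈ (chartAt (EE n) p).target) :
    LI (loc (n := n) F p t) y ∧
      HH (n := n) F ((chartAt (EE n) p).symm y) t = mcv (loc (n := n) F p t) y := by
  have h := hI3 n N M S F hF p ((chartAt (EE n) p).symm y) t ht
    ((chartAt (EE n) p).map_target hy)
  rw [(chartAt (EE n) p).right_inv hy] at h
  exact ⟨h.1, h.2.1⟩

private theorem locC (hI2 : StI2J) (S : Set ℝ) (F : M → ℝ → EE N) (hF : IsImmJ (n := n) S F) (p : M) (t : ℝ)
    (ht : t ∈ S) :
    ContDiffOn ℝ ∞ (loc (n := n) F p t) (chartAt (EE n) p).target := by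
  have h := hI2 n N M S F hF p
  have h2 : ContDiffOn ℝ ∞ (fun y : EE n => (y, t)) (chartAt (EE n) p).target := by
    fun_prop
  exact h.comp h2 (fun y hy => ⟨hy, ht⟩)

private theorem DD_chart (hV6a : StV6aJ) (hI3 : StI3J) (S : Set ℝ) (F : M → ℝ → EE N) (hF : IsImmJ (n := n) S F)
    (p : M) (t : ℝ) (ht : t ∈ S) (Z : M → EE N) (hZ : ContMDiff (𝓡 n) 𝓘(ℝ, EE N) 1 Z)
    (y : EE n) (hy : y ∈ (chartAt (EE n) p).target) :
    Helper67.PI.V6.DD (n := n) F t Z ((chartAt (EE n) p).symm y) = Helper67.PI.V6.EZ (n := n) F t p Z y := by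
  have h := hV6a n N M S F hF t ht Z p ((chartAt (EE n) p).symm y) (hZ _)
    ((chartAt (EE n) p).map_target hy)
  rw [(chartAt (EE n) p).right_inv hy] at h
  unfold Helper67.PI.V6.DD Helper67.PI.V6.EZ
  rw [h, (chartL hI3 S F hF p t ht y hy).2]

private theorem sgm_cont (hSM : StSM) (hI2 : StI2J) (hI3 : StI3J) (S : Set ℝ) (F : M → ℝ → EE N)
    (hF : IsImmJ (n := n) S F) (p : M) (t : ℝ) (ht : t ∈ S) (y : EE n)
    (hy : y ∈ (chartAt (EE n) p).target) :
    ContinuousAt (fun y => sgm (loc (n := n) F p t) y) y ∧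
    (∀ i j, ContinuousAt (fun y => (gram (loc (n := n) F p t) y)⁻¹ i j) y) ∧
    ContinuousAt (fun y => mcv (loc (n := n) F p t) y) y := by
  have h1 := chartF hI2 S F hF p t ht y hy
  have h2 := (chartL hI3 S F hF p t ht y hy).1
  obtain ⟨-, -, -, -, hg, hgi, -, hm, -, -⟩ := hSM n N _ (y, t) h1 h2
  have hc : ContinuousAt (fun y' : EE n => (y', t)) y := by fun_prop
  refine ⟨?_, ?_, ?_⟩
  · have hgc : ∀ i j, ContinuousAt (fun y => gram (loc (n := n) F p t) y i j) y := fun i j =>
      ContinuousAt.comp (f := fun y' : EE n => (y', t)) (hg i j).continuousAt hc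
    have hG : ContinuousAt (fun y => gram (loc (n := n) F p t) y) y := by
      refine continuousAt_pi.mpr fun i => continuousAt_pi.mpr fun j => hgc i j
    have hdet : Continuous (fun A : Matrix (Fin n) (Fin n) ℝ => A.det) :=
      Continuous.matrix_det continuous_id
    have := hdet.continuousAt.comp hG
    exact Real.continuous_sqrt.continuousAt.comp this
  · intro i j
    exact ContinuousAt.comp (f := fun y' : EE n => (y', t)) (hgi i j).continuousAt hc
  · exact ContinuousAt.comp (f := fun y' : EE n => (y', t)) hm.continuousAt hc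

private theorem EZ_cont (hSM : StSM) (hI2 : StI2J) (hI3 : StI3J) (S : Set ℝ) (F : M → ℝ → EE N)
    (hF : IsImmJ (n := n) S F) (p : M) (t : ℝ) (ht : t ∈ S) (Z : M → EE N)
    (hZ : ContMDiff (𝓡 n) 𝓘(ℝ, EE N) 1 Z) :
    ContinuousOn (Helper67.PI.V6.EZ (n := n) F t p Z) (chartAt (EE n) p).target := by
  have hop := (chartAt (EE n) p).open_target
  have hZc := Helper67.PI.V6.ZC Z hZ p
  have hf1 : ContinuousOn (fderiv ℝ (fun y => Z ((chartAt (EE n) p).symm y)))
      (chartAt (EE n) p).target := hZc.continuousOn_fderiv_of_isOpen hop le_rfl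
  have hf2 : ContinuousOn (fderiv ℝ (loc (n := n) F p t)) (chartAt (EE n) p).target :=
    (locC hI2 S F hF p t ht).continuousOn_fderiv_of_isOpen hop (by exact_mod_cast le_top)
  have hg : ∀ i j, ContinuousOn (fun y => (gram (loc (n := n) F p t) y)⁻¹ i j)
      (chartAt (EE n) p).target := fun i j y hy =>
    ((sgm_cont hSM hI2 hI3 S F hF p t ht y hy).2.1 i j).continuousWithinAt
  have hm : ContinuousOn (fun y => mcv (loc (n := n) F p t) y)
      (chartAt (EE n) p).target := fun y hy =>
    (sgm_cont hSM hI2 hI3 S F hF p t ht y hy).2.2.continuousWithinAt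
  unfold Helper67.PI.V6.EZ
  refine ContinuousOn.add ?_ (hm.inner hZc.continuousOn)
  refine continuousOn_finsetSum _ fun i _ => continuousOn_finsetSum _ fun j _ => ?_
  refine (hg i j).mul (ContinuousOn.inner ?_ ?_)
  · exact hf1.clm_apply continuousOn_const
  · exact hf2.clm_apply continuousOn_const

end

theorem hFVJ (hMU : StMUJ) (hV6 : StV6J) (hV6a : StV6aJ) (hSM : Helper35.PI.StSM) (hI2 : StI2J) (hI3 : StI3J)
    (hI4 : StI4J) : StFVJ := by
  intro n N M _ _ _ _ _ _ _ S F c χ hS t ht X hX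
  have hF := hS.mcf
  have hDD : Continuous (Helper67.PI.V6.DD (n := n) F t X) := by
    rw [continuous_iff_continuousAt]
    intro q₀
    have hE := EZ_cont hSM hI2 hI3 S F hF q₀ t ht X hX
    have hq : q₀ ∈ (chartAt (EE n) q₀).source := mem_chart_source _ _
    have h1 : ContinuousAt (fun q => Helper67.PI.V6.EZ (n := n) F t q₀ X (chartAt (EE n) q₀ q))
        q₀ := by
      have h2 : ContinuousAt (Helper67.PI.V6.EZ (n := n) F t q₀ X) (chartAt (EE n) q₀ q₀) :=
        hE.continuousAt ((chartAt (EE n) q₀).open_target.mem_nhds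
          ((chartAt (EE n) q₀).map_source hq))
      exact h2.comp ((chartAt (EE n) q₀).continuousAt hq)
    refine h1.congr ?_
    filter_upwards [(chartAt (EE n) q₀).open_source.mem_nhds hq] with q hq'
    have h3 := DD_chart hV6a hI3 S F hF q₀ t ht X hX (chartAt (EE n) q₀ q)
      ((chartAt (EE n) q₀).map_source hq')
    rw [(chartAt (EE n) q₀).left_inv hq'] at h3
    exact h3.symm
  have hHH : Continuous (fun q => HH (n := n) F q t) := by
    have h := (hI4 n N M S F hF).2.1
    have h2 : Continuous (fun q : M => (q, t)) := by fun_prop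
    have hm : ∀ q : M, (q, t) ∈ (univ : Set M) ×ˢ S := fun q =>
      Set.mk_mem_prod (mem_univ q) ht
    have h3 : Continuous ((fun z : M × ℝ => HH (n := n) F z.1 z.2) ∘ fun q : M => (q, t)) :=
      ContinuousOn.comp_continuous h h2 hm
    exact h3
  refine ⟨?_, ?_⟩
  · have e : (fun q => dvg (n := n) F X q t) = fun q =>
        Helper67.PI.V6.DD (n := n) F t X q - inner ℝ (HH (n := n) F q t) (X q) := by
      funext q
      unfold Helper67.PI.V6.DD
      ring
    rw [e]
    exact hDD.sub (hHH.inner hX.continuous)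
  · obtain ⟨s, hs, h⟩ := hMU n N M S F c χ hS
    obtain ⟨-, -, h2⟩ := h t ht
    have h3 := (h2 _ hDD).2
    have h4 := (hV6 n N M S F hF t ht c χ hS.pu X hX (HasCompactSupport.of_compactSpace X) s
      (fun i hi q _ => hs i hi q)).2
    have h5 : ∫ q, (dvg (n := n) F X q t + inner ℝ (HH (n := n) F q t) (X q)) ∂muM n F c χ t =
        Ls n F c χ s t (Helper67.PI.V6.DD (n := n) F t X) := h3
    rw [h5, ← h4]
    unfold Ls
    refine Finset.sum_congr rfl fun i _ => ?_
    congr 1
    funext y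
    unfold Helper67.PI.V6.DD
    ring

end Pool.Agent.Helper51.MS
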